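import Pool.Agent.N837.LP.GenQ

set_option autoImplicit false

/-!
# Runs of `H` consecutive even numbers without partitions from a prescribed set of `A log X` primes

For all `H`, `A ≥ 1` and `0 < η ≤ 1`, for every large `X` and EVERY set `P` of at most `A log X` natural
numbers, for a positive proportion of the `N ≡ r (mod Q)` in `(X, X + X ^ η]` none of the numbers
`N + 2 h - p`, `0 ≤ h < H`, `p ∈ P`, is prime.
-/

namespace Pool.Agent.Results.MP_33f996_nt.RunsOfEvenNumbers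

theorem result (δ : ℝ) (hδ : 0 < δ) : ∃ C : ℝ, 0 < C ∧ ∀ (H : ℕ) (A η κ : ℝ), 1 ≤ H → 1 ≤ A →
    0 < η → η ≤ 1 → 1 ≤ κ → ∃ X₀ : ℝ, ∀ X : ℝ, X₀ ≤ X → ∀ Q : ℕ, 0 < Q → (Q : ℝ) ≤ X ^ (η / 2) →
    (Q : ℝ) ≤ κ * Q.totient → ∀ P : Finset ℕ, (P.card : ℝ) ≤ A * Real.log X → ∀ r : ℤ,
    X ^ η / Q * Real.exp (-Real.exp (C * H * A * κ / η)) ≤
      (({N : ℕ | X < N ∧ (N : ℝ) ≤ X + X ^ η ∧ (Q : ℤ) ∣ N - r ∧
        ∀ h : ℕ, h < H → ∀ p ∈ P, p < N + 2 * h → ∃ q : ℕ, q.Prime ∧ (q : ℝ) ≤ X ^ (η * δ) ∧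
          q ∣ N + 2 * h - p ∧ q < N + 2 * h - p}).ncard : ℝ) := by
  classical
  obtain ⟨C, hC, hg⟩ := Pool.Agent.N837.LP.genQ δ hδ
  refine ⟨C, hC, fun H A η κ hH hA hη hη1 hκ => ?_⟩
  have hHR : (1:ℝ) ≤ H := by exact_mod_cast hH
  obtain ⟨X₀, hX₀⟩ := hg (H * A) η 2 κ (by nlinarith) hη hη1 (by norm_num) hκ
  refine ⟨max X₀ (max 4 (2 * H)), fun X hX Q hQ hQX hQφ P hP r => ?_⟩
  have hX4 : 4 ≤ X := (le_max_left _ _).trans ((le_max_right _ _).trans hX)
  have hXH : 2 * (H:ℝ) ≤ X := (le_max_right _ _).trans ((le_max_right _ _).trans hX)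
  have hX0 : 0 < X := by linarith
  have hXη : X ^ η ≤ X := by
    calc X ^ η ≤ X ^ (1:ℝ) := Real.rpow_le_rpow_of_exponent_le (by linarith) hη1
      _ = X := Real.rpow_one X
  set B : Finset ℤ := ((Finset.range H) ×ˢ (P.filter (fun p : ℕ => (p : ℝ) ≤ 3 * X))).image
    (fun z : ℕ × ℕ => (z.2 : ℤ) - 2 * z.1) with hB
  have h1 := hX₀ X ((le_max_left _ _).trans hX) Q hQ hQX hQφ B
    (by
      have e1 : B.card ≤ H * P.card := by
        refine Finset.card_image_le.trans ?_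
        rw [Finset.card_product, Finset.card_range]
        exact Nat.mul_le_mul_left _ (Finset.card_filter_le _ _)
      have e2 : (B.card : ℝ) ≤ H * P.card := by exact_mod_cast e1
      calc (B.card : ℝ) ≤ H * P.card := e2
        _ ≤ H * (A * Real.log X) := mul_le_mul_of_nonneg_left hP (by linarith)
        _ = _ := by ring)
    (by
      intro b hb
      rw [hB, Finset.mem_image] at hb
      obtain ⟨⟨h, p⟩, hz, rfl⟩ := hb
      rw [Finset.mem_product, Finset.mem_range, Finset.mem_filter] at hz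
      obtain ⟨hh, hp, hpX⟩ := hz
      simp only at hh hpX ⊢
      have e1 : (h : ℝ) ≤ H := by exact_mod_cast hh.le
      have e2 : (0:ℝ) ≤ h := Nat.cast_nonneg _
      have e3 : (0:ℝ) ≤ p := Nat.cast_nonneg _
      push_cast
      have e4 : X ^ (2:ℝ) = X * X := by
        rw [show (2:ℝ) = ((2:ℕ):ℝ) by norm_num, Real.rpow_natCast]
        ring
      rw [e4, abs_le]
      constructor <;> nlinarith) r
  have h2 : C * (H * A) * κ / η = C * H * A * κ / η := by ring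
  rw [h2] at h1
  refine h1.trans (Nat.cast_le.2 (Set.ncard_le_ncard ?_ ?_))
  · intro n hn
    obtain ⟨q1, q2, q3, q4⟩ := hn
    refine ⟨q1, q2, q3, fun h hh p hp hpn => ?_⟩
    have hpR : (p : ℝ) < n + 2 * h := by exact_mod_cast hpn
    have hhR : (h : ℝ) ≤ H := by exact_mod_cast hh.le
    obtain ⟨q, p1, p2, p3, p4⟩ := q4 ((p : ℤ) - 2 * h) (by
      rw [hB, Finset.mem_image]
      refine ⟨(h, p), ?_, rfl⟩
      rw [Finset.mem_product, Finset.mem_range, Finset.mem_filter]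
      exact ⟨hh, hp, by show (p : ℝ) ≤ 3 * X; linarith⟩)
    have e1 : ((n + 2 * h - p : ℕ) : ℤ) = (n : ℤ) - ((p : ℤ) - 2 * h) := by
      rw [Nat.cast_sub hpn.le]
      push_cast
      ring
    rw [← e1] at p3 p4
    rw [abs_of_nonneg (by positivity)] at p4
    exact ⟨q, p1, p2, by exact_mod_cast p3, by exact_mod_cast p4⟩
  · apply (Set.finite_Iic ⌊X + X ^ η⌋₊).subset
    intro a ha
    obtain ⟨_, h2, _⟩ := ha
    rw [Set.mem_Iic]
    exact Nat.le_floor h2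

end Pool.Agent.Results.MP_33f996_nt.RunsOfEvenNumbers
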