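import Pool.Agent.N837.LP.GenV

set_option autoImplicit false

/-!
# Even numbers without a representation `n = q + m²` with `m` in a given set of `A log n` roots

For every `A` and `0 < η ≤ 1`, every large `X` and EVERY set `S` of at most `A log X` natural numbers
`m ≤ √(X / 2)`, a positive proportion of the even numbers `n` in `(X, X + X ^ η]` is such that
`n - m²` is composite for all `m ∈ S`, with a prime factor at most `X ^ (η δ)`.  The proportion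
depends on `A / η` (and `δ`) only.
-/

theorem Pool.Agent.Results.MP_d48457_nt.SparseRootsTail.result (δ : ℝ) (hδ : 0 < δ) :
    ∃ C : ℝ, 0 < C ∧ ∀ A η : ℝ, 1 ≤ A → 0 < η → η ≤ 1 →
    ∃ X₀ : ℝ, ∀ X : ℝ, X₀ ≤ X → ∀ S : Finset ℕ, (S.card : ℝ) ≤ A * Real.log X →
    (∀ m ∈ S, (m : ℝ) ^ 2 ≤ X / 2) →
    X ^ η * Real.exp (-Real.exp (C * A / η)) ≤
      (({n : ℕ | Even n ∧ X < n ∧ (n : ℝ) ≤ X + X ^ η ∧ ∀ m ∈ S, ∃ q : ℕ, q.Prime ∧
        (q : ℝ) ≤ X ^ (η * δ) ∧ (q : ℤ) ∣ (n : ℤ) - (m : ℤ) ^ 2 ∧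
        (q : ℤ) < (n : ℤ) - (m : ℤ) ^ 2}).ncard : ℝ) := by
  obtain ⟨C, hC, h⟩ := Pool.Agent.N837.LP.genV δ hδ
  refine ⟨C, hC, fun A η hA hη hη1 => ?_⟩
  obtain ⟨X₀, hX₀⟩ := h A η hA hη hη1
  refine ⟨X₀, fun X hX S hS hSX => ?_⟩
  have h1 := hX₀ X hX (S.image (fun m : ℕ => (m : ℤ) ^ 2))
    (le_trans (by exact_mod_cast Finset.card_image_le) hS)
    (by
      intro b hb
      rw [Finset.mem_image] at hb
      obtain ⟨m, hm, rfl⟩ := hb
      push_cast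
      rw [abs_of_nonneg (by positivity)]
      exact hSX m hm)
    0
  refine h1.trans (Nat.cast_le.2 (Set.ncard_le_ncard ?_ ?_))
  · intro n hn
    obtain ⟨q1, q2, q3, q4⟩ := hn
    refine ⟨?_, q1, q2, fun m hm => q4 _ (Finset.mem_image_of_mem _ hm)⟩
    have e1 : (n : ℤ) % 2 = 0 := by simpa using q3
    have e2 : n % 2 = 0 := by omega
    exact Nat.even_iff.2 e2
  · apply (Set.finite_Iic ⌊X + X ^ η⌋₊).subset
    intro a ha
    obtain ⟨_, _, h2, _⟩ := ha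
    rw [Set.mem_Iic]
    exact Nat.le_floor h2
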