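import Pool.Agent.N837.LP.GenQ

set_option autoImplicit false

/-!
# Every set of `A log x` shifts is missed by the primes for a positive proportion of the translates

For every `A ≥ 1`, `0 < η ≤ 1` and `E ≥ 1`, for every large `x` and EVERY set of at most `A log x` shifts
`0 ≤ a ≤ x ^ E`, for a positive proportion of the `n ≡ r (mod Q)` in `(x, x + x ^ η]` none of the numbers
`n + a` is prime.
-/

namespace Pool.Agent.Results.MP_f686a1_nt.MissedShiftSets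

theorem result (δ : ℝ) (hδ : 0 < δ) : ∃ C : ℝ, 0 < C ∧ ∀ A η E κ : ℝ, 1 ≤ A → 0 < η → η ≤ 1 →
    1 ≤ E → 1 ≤ κ → ∃ x₀ : ℝ, ∀ x : ℝ, x₀ ≤ x → ∀ Q : ℕ, 0 < Q → (Q : ℝ) ≤ x ^ (η / 2) →
    (Q : ℝ) ≤ κ * Q.totient → ∀ S : Finset ℕ, (S.card : ℝ) ≤ A * Real.log x →
    (∀ a ∈ S, (a : ℝ) ≤ x ^ E) → ∀ r : ℤ,
    x ^ η / Q * Real.exp (-Real.exp (C * A * κ / η)) ≤
      (({n : ℕ | x < n ∧ (n : ℝ) ≤ x + x ^ η ∧ (Q : ℤ) ∣ n - r ∧
        ∀ a ∈ S, ∃ q : ℕ, q.Prime ∧ (q : ℝ) ≤ x ^ (η * δ) ∧ q ∣ n + a ∧ q < n + a}).ncard : ℝ) := by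
  obtain ⟨C, hC, h⟩ := Pool.Agent.N837.LP.genQ δ hδ
  refine ⟨C, hC, fun A η E κ hA hη hη1 hE hκ => ?_⟩
  obtain ⟨X₀, hX₀⟩ := h A η E κ hA hη hη1 hE hκ
  refine ⟨X₀, fun X hX Q hQ hQX hQφ D hD hDX r => ?_⟩
  have h1 := hX₀ X hX Q hQ hQX hQφ (D.image (fun d : ℕ => -(d : ℤ)))
    (le_trans (by exact_mod_cast Finset.card_image_le) hD)
    (by
      intro b hb
      rw [Finset.mem_image] at hb
      obtain ⟨m, hm, rfl⟩ := hb
      push_cast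
      rw [abs_neg, abs_of_nonneg (by positivity)]
      exact hDX m hm) r
  refine h1.trans (Nat.cast_le.2 (Set.ncard_le_ncard ?_ ?_))
  · intro n hn
    obtain ⟨q1, q2, q3, q4⟩ := hn
    refine ⟨q1, q2, q3, fun d hd => ?_⟩
    obtain ⟨q, p1, p2, p3, p4⟩ := q4 _ (Finset.mem_image_of_mem _ hd)
    rw [sub_neg_eq_add] at p3 p4
    rw [abs_of_nonneg (by positivity)] at p4
    exact ⟨q, p1, p2, by exact_mod_cast p3, by exact_mod_cast p4⟩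
  · apply (Set.finite_Iic ⌊X + X ^ η⌋₊).subset
    intro a ha
    obtain ⟨_, h2, _⟩ := ha
    rw [Set.mem_Iic]
    exact Nat.le_floor h2

end Pool.Agent.Results.MP_f686a1_nt.MissedShiftSets
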