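import Pool.Agent.N837.LP.GenQ

set_option autoImplicit false

/-!
# Every set of `A log X` cubes: no prime `m ^ 3 + k` for a positive proportion of the `k`

For every `A ≥ 1`, `0 < η ≤ 1` and `E ≥ 1`, for every large `X` and EVERY set `S` of at most `A log X`
integers `m`, `|m| ≤ X ^ E`, for a positive proportion of the `k ≡ r (mod Q)` in `(X, X + X ^ η]` all the
numbers `|m ^ 3 + k|`, `m ∈ S`, are composite.
-/

namespace Pool.Agent.Results.MP_4d57ea_nt.SparseCubes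

theorem result (δ : ℝ) (hδ : 0 < δ) : ∃ C : ℝ, 0 < C ∧ ∀ A η E κ : ℝ, 1 ≤ A → 0 < η → η ≤ 1 →
    1 ≤ E → 1 ≤ κ → ∃ X₀ : ℝ, ∀ X : ℝ, X₀ ≤ X → ∀ Q : ℕ, 0 < Q → (Q : ℝ) ≤ X ^ (η / 2) →
    (Q : ℝ) ≤ κ * Q.totient → ∀ S : Finset ℤ, (S.card : ℝ) ≤ A * Real.log X →
    (∀ m ∈ S, |(m : ℝ)| ≤ X ^ E) → ∀ r : ℤ,
    X ^ η / Q * Real.exp (-Real.exp (C * A * κ / η)) ≤
      (({k : ℕ | X < k ∧ (k : ℝ) ≤ X + X ^ η ∧ (Q : ℤ) ∣ k - r ∧
        ∀ m ∈ S, ∃ q : ℕ, q.Prime ∧ (q : ℝ) ≤ X ^ (η * δ) ∧ (q : ℤ) ∣ m ^ 3 + k ∧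
          (q : ℤ) < |m ^ 3 + (k : ℤ)|}).ncard : ℝ) := by
  classical
  obtain ⟨C, hC, h⟩ := Pool.Agent.N837.LP.genQ δ hδ
  refine ⟨C, hC, fun A η E κ hA hη hη1 hE hκ => ?_⟩
  obtain ⟨X₀, hX₀⟩ := h A η (3 * E) κ hA hη hη1 (by linarith) hκ
  refine ⟨max X₀ 1, fun X hX Q hQ hQX hQφ D hD hDX r => ?_⟩
  have hX1 : 1 ≤ X := (le_max_right _ _).trans hX
  have hX0 : 0 < X := by linarith
  have h1 := hX₀ X ((le_max_left _ _).trans hX) Q hQ hQX hQφ (D.image (fun m : ℤ => -(m ^ 3)))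
    (le_trans (by exact_mod_cast Finset.card_image_le) hD)
    (by
      intro b hb
      rw [Finset.mem_image] at hb
      obtain ⟨m, hm, rfl⟩ := hb
      push_cast
      rw [abs_neg, abs_pow]
      have e1 : X ^ (3 * E) = (X ^ E) ^ 3 := by
        rw [← Real.rpow_natCast, ← Real.rpow_mul hX0.le]
        congr 1
        push_cast
        ring
      rw [e1]
      exact pow_le_pow_left₀ (abs_nonneg _) (hDX m hm) 3) r
  refine h1.trans (Nat.cast_le.2 (Set.ncard_le_ncard ?_ ?_))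
  · intro n hn
    obtain ⟨q1, q2, q3, q4⟩ := hn
    refine ⟨q1, q2, q3, fun m hm => ?_⟩
    obtain ⟨q, p1, p2, p3, p4⟩ := q4 _ (Finset.mem_image_of_mem _ hm)
    have e1 : (n : ℤ) - -(m ^ 3) = m ^ 3 + n := by ring
    rw [e1] at p3 p4
    exact ⟨q, p1, p2, p3, p4⟩
  · apply (Set.finite_Iic ⌊X + X ^ η⌋₊).subset
    intro a ha
    obtain ⟨_, h2, _⟩ := ha
    rw [Set.mem_Iic]
    exact Nat.le_floor h2

end Pool.Agent.Results.MP_4d57ea_nt.SparseCubes
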